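import Mathlib

set_option autoImplicit false

namespace Pool.Agent.Results.MP_16f3b0_al.SimpleCyclic

variable {R : Type} [NonUnitalNonAssocRing R]

/-- two-sided ideals of the ring `R` -/
def IsIdeal (I : AddSubgroup R) : Prop := ∀ x ∈ I, ∀ y, x * y ∈ I ∧ y * x ∈ I

/-- `R` is generated as a ring by `a` and `b` -/
def IsGeneratedBy (a b : R) : Prop :=
  ∀ S : AddSubgroup R, a ∈ S → b ∈ S → (∀ x ∈ S, ∀ y ∈ S, x * y ∈ S) → S = ⊤

/-- `0 = I 0 ⊆ I 1 ⊆ … ⊆ I n = R` is a chain of ideals with associative quotients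
`I (k+1) / I k`. -/
structure IsAssociativeSeries (n : ℕ) (I : ℕ → AddSubgroup R) : Prop where
  bot : I 0 = ⊥
  top : I n = ⊤
  ideal : ∀ k, k ≤ n → IsIdeal (I k)
  mono : ∀ k, k < n → I k ≤ I (k + 1)
  assoc : ∀ k, k < n → ∀ x ∈ I (k + 1), ∀ y ∈ I (k + 1), ∀ z ∈ I (k + 1),
    (x * y) * z - x * (y * z) ∈ I k

/-- the underlying set of the example -/
def A : Type := Fin 3 → ZMod 2

instance : AddCommGroup A := inferInstanceAs (AddCommGroup (Fin 3 → ZMod 2))
instance : DecidableEq A := inferInstanceAs (DecidableEq (Fin 3 → ZMod 2))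

def mulA (x y : Fin 3 → ZMod 2) : Fin 3 → ZMod 2 :=
  ![x 0 * y 1, x 0 * y 2 + x 1 * y 1 + x 2 * y 0, x 0 * y 0]

instance : Mul A := ⟨mulA⟩

theorem ld : ∀ x y z : Fin 3 → ZMod 2, mulA x (y + z) = mulA x y + mulA x z := by
  intro x y z
  ext i
  fin_cases i <;> simp [mulA] <;> ring

theorem rd : ∀ x y z : Fin 3 → ZMod 2, mulA (x + y) z = mulA x z + mulA y z := by
  intro x y z
  ext i
  fin_cases i <;> simp [mulA] <;> ring

theorem zm : ∀ x : Fin 3 → ZMod 2, mulA 0 x = 0 := by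
  intro x
  ext i
  fin_cases i <;> simp [mulA]

theorem mz : ∀ x : Fin 3 → ZMod 2, mulA x 0 = 0 := by
  intro x
  ext i
  fin_cases i <;> simp [mulA]

instance : NonUnitalNonAssocRing A :=
  { (inferInstance : AddCommGroup A) with
    mul := fun x y => mulA x y
    left_distrib := ld
    right_distrib := rd
    zero_mul := zm
    mul_zero := mz }

theorem ra (x y : A) : (x * y) * y = x * (y * y) := by
  have h : ∀ x y : Fin 3 → ZMod 2, mulA (mulA x y) y = mulA x (mulA y y) := by decide +kernel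
  exact h x y

def e0 : A := (![1, 0, 0] : Fin 3 → ZMod 2)
def e1 : A := (![0, 1, 0] : Fin 3 → ZMod 2)
def e2 : A := (![0, 0, 1] : Fin 3 → ZMod 2)

theorem e0e0 : e0 * e0 = e2 := by decide +kernel
theorem e0e1 : e0 * e1 = e0 := by decide +kernel
theorem e0e2 : e0 * e2 = e1 := by decide +kernel

theorem top_of {S : AddSubgroup A} (h0 : e0 ∈ S) (h1 : e1 ∈ S) (h2 : e2 ∈ S) : S = ⊤ := by
  rw [eq_top_iff]
  intro x _
  have h : ∀ x : Fin 3 → ZMod 2, x = 0 ∨ x = ![1, 0, 0] ∨ x = ![0, 1, 0] ∨ x = ![0, 0, 1] ∨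
      x = ![1, 0, 0] + ![0, 1, 0] ∨ x = ![1, 0, 0] + ![0, 0, 1] ∨ x = ![0, 1, 0] + ![0, 0, 1] ∨
      x = ![1, 0, 0] + ![0, 1, 0] + ![0, 0, 1] := by decide +kernel
  rcases h x with h | h | h | h | h | h | h | h
  · rw [show x = 0 from h]; exact S.zero_mem
  · rw [show x = e0 from h]; exact h0
  · rw [show x = e1 from h]; exact h1
  · rw [show x = e2 from h]; exact h2
  · rw [show x = e0 + e1 from h]; exact S.add_mem h0 h1
  · rw [show x = e0 + e2 from h]; exact S.add_mem h0 h2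
  · rw [show x = e1 + e2 from h]; exact S.add_mem h1 h2
  · rw [show x = e0 + e1 + e2 from h]; exact S.add_mem (S.add_mem h0 h1) h2

/-- some product of the shape `x`, `x * e2`, `(e0 * x) * e2`, `(e0 * (e0 * x)) * e2` or `x * e0`
type leads from any nonzero element to `e1` -/
theorem reach : ∀ x : A, x ≠ 0 → x * e2 = e1 ∨ (e0 * x) * e2 = e1 ∨ ((x * e0) * e0) = e0 ∨
    (e0 * (x * e0)) * e2 = e1 ∨ (e0 * (e0 * x)) * e2 = e1 := by
  have h : ∀ x : Fin 3 → ZMod 2, x ≠ 0 → mulA x ![0, 0, 1] = ![0, 1, 0] ∨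
      mulA (mulA ![1, 0, 0] x) ![0, 0, 1] = ![0, 1, 0] ∨
      mulA (mulA x ![1, 0, 0]) ![1, 0, 0] = ![1, 0, 0] ∨
      mulA (mulA ![1, 0, 0] (mulA x ![1, 0, 0])) ![0, 0, 1] = ![0, 1, 0] ∨
      mulA (mulA ![1, 0, 0] (mulA ![1, 0, 0] x)) ![0, 0, 1] = ![0, 1, 0] := by decide +kernel
  exact h

theorem simple (I : AddSubgroup A) (hI : IsIdeal I) : I = ⊥ ∨ I = ⊤ := by
  by_cases hbot : I = ⊥
  · exact Or.inl hbot
  right
  obtain ⟨x, hx, hne⟩ : ∃ x ∈ I, x ≠ 0 := by
    by_contra hc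
    push Not at hc
    apply hbot
    rw [eq_bot_iff]
    intro x hx
    rw [hc x hx]
    exact AddSubgroup.zero_mem _
  have hfrom0 : e0 ∈ I → I = ⊤ := by
    intro h0
    have h2 : e2 ∈ I := by
      have := (hI e0 h0 e0).1
      rwa [e0e0] at this
    have h1 : e1 ∈ I := by
      have := (hI e0 h0 e2).1
      rwa [e0e2] at this
    exact top_of h0 h1 h2
  have hfrom1 : e1 ∈ I → I = ⊤ := by
    intro h1
    have := (hI e1 h1 e0).2
    rw [e0e1] at this
    exact hfrom0 this
  rcases reach x hne with h | h | h | h | h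
  · apply hfrom1
    rw [← h]; exact (hI _ hx _).1
  · apply hfrom1
    rw [← h]; exact (hI _ (hI _ hx _).2 _).1
  · apply hfrom0
    rw [← h]; exact (hI _ (hI _ hx _).1 _).1
  · apply hfrom1
    rw [← h]; exact (hI _ (hI _ (hI _ hx _).1 _).2 _).1
  · apply hfrom1
    rw [← h]; exact (hI _ (hI _ (hI _ hx _).2 _).2 _).1

theorem not_assoc : (e0 * e0) * e1 - e0 * (e0 * e1) ≠ 0 := by decide +kernel

/-- There is a right alternative ring with eight elements, generated by two (even by one of its)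
elements, that has no finite chain of ideals with associative quotients. -/
theorem result : ∃ (R : Type) (_ : NonUnitalNonAssocRing R), Nat.card R = 8 ∧
    (∀ x y : R, (x * y) * y = x * (y * y)) ∧ (∃ a b : R, IsGeneratedBy a b) ∧
    ∀ (n : ℕ) (I : ℕ → AddSubgroup R), ¬ IsAssociativeSeries n I := by
  refine ⟨A, inferInstance, ?_, ra, ⟨e0, e0, ?_⟩, ?_⟩
  · show Nat.card (Fin 3 → ZMod 2) = 8
    simp
  · intro S h0 _ hS
    have h2 : e2 ∈ S := by
      have := hS _ h0 _ h0
      rwa [e0e0] at this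
    have h1 : e1 ∈ S := by
      have := hS _ h0 _ h2
      rwa [e0e2] at this
    exact top_of h0 h1 h2
  · intro n I h
    have key : ∀ k, k ≤ n → I k = ⊥ := by
      intro k
      induction k with
      | zero => intro _; exact h.bot
      | succ k ih =>
        intro hk
        rcases simple (I (k + 1)) (h.ideal _ hk) with h1 | h1
        · exact h1
        · exfalso
          have h2 := h.assoc k (by omega) e0 (by rw [h1]; trivial) e0 (by rw [h1]; trivial) e1
            (by rw [h1]; trivial)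
          rw [ih (by omega), AddSubgroup.mem_bot] at h2
          exact not_assoc h2
    have h1 := key n le_rfl
    rw [h.top] at h1
    have h2 : e0 ∈ (⊤ : AddSubgroup A) := trivial
    rw [h1, AddSubgroup.mem_bot] at h2
    exact absurd (congrFun h2 0) (by decide)

end Pool.Agent.Results.MP_16f3b0_al.SimpleCyclic
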